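import Pool.Agent.P.MP_068ab5_pr.Main

/-!
Discrete duality for bond percolation on the hypercube: the second largest cluster at
`p_c (1 + ε)` and the largest cluster at `p_c (1 - ε)` both have size
`(1 + o(1)) 2 ε⁻² log (ε³ 2^d)` in probability.
-/

namespace Pool.Agent.Results.MP_068ab5_pr.Duality

open Filter Topology

/-- The hypercube graph `Q_d`: vertices are the 0-1 vectors of length `d`, and two vertices are
adjacent when they differ in exactly one coordinate. -/
def cube (d : ℕ) : SimpleGraph (Fin d → ZMod 2) :=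
  SimpleGraph.fromRel fun x y => hammingDist x y = 1

/-- The edge set of `Q_d` as a finite set. -/
noncomputable def edges (d : ℕ) : Finset (Sym2 (Fin d → ZMod 2)) :=
  (Set.toFinite (cube d).edgeSet).toFinset

/-- Expectation of `F` under bond percolation on `Q_d` with parameter `p`: the configuration `ω`
(the set of retained edges) has probability `p ^ |ω| * (1 - p) ^ (|E| - |ω|)`. -/
noncomputable def expect (d : ℕ) (p : ℝ) (F : Finset (Sym2 (Fin d → ZMod 2)) → ℝ) : ℝ :=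
  ∑ ω ∈ (edges d).powerset, p ^ ω.card * (1 - p) ^ ((edges d).card - ω.card) * F ω

/-- Probability of the event `A` under bond percolation on `Q_d` with parameter `p`. -/
noncomputable def prob (d : ℕ) (p : ℝ) (A : Set (Finset (Sym2 (Fin d → ZMod 2)))) : ℝ :=
  expect d p (A.indicator fun _ => 1)

/-- The vertices `x` and `y` lie in the same cluster of the configuration `ω`. -/
def Conn {d : ℕ} (ω : Finset (Sym2 (Fin d → ZMod 2))) (x y : Fin d → ZMod 2) : Prop :=
  (SimpleGraph.fromEdgeSet (ω : Set (Sym2 (Fin d → ZMod 2)))).Reachable x y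

/-- Number of vertices of the cluster of `x`. -/
noncomputable def clusterSize {d : ℕ} (ω : Finset (Sym2 (Fin d → ZMod 2)))
    (x : Fin d → ZMod 2) : ℕ := {y | Conn ω x y}.ncard

/-- Expected size of the cluster of the origin. -/
noncomputable def chi (d : ℕ) (p : ℝ) : ℝ := expect d p fun ω => (clusterSize ω 0 : ℝ)

/-- Size of the largest cluster. -/
noncomputable def C1 {d : ℕ} (ω : Finset (Sym2 (Fin d → ZMod 2))) : ℕ :=
  sSup {m | ∃ x, m = clusterSize ω x}

/-- Size of the second largest cluster (zero if there is only one cluster): the maximum over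
pairs of distinct clusters of the smaller size. -/
noncomputable def C2 {d : ℕ} (ω : Finset (Sym2 (Fin d → ZMod 2))) : ℕ :=
  sSup {m | ∃ x y, ¬ Conn ω x y ∧ m = min (clusterSize ω x) (clusterSize ω y)}

section Bridge
open Finset Pool.Agent.P.MP_068ab5_pr
open scoped Classical

variable {d : ℕ}

lemma dist_one {x y : Cube d} : hammingDist x y = 1 ↔ ∃ i, y = x + un i := by
  have h1 : ∀ a b : ZMod 2, a ≠ b → b = a + 1 := by decide
  have h2 : ∀ a : ZMod 2, a ≠ a + 1 := by decide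
  rw [hammingDist, card_eq_one]
  refine exists_congr fun i => ⟨fun h => funext fun j => ?_, ?_⟩
  · have h3 := Finset.ext_iff.1 h j
    simp only [mem_filter, mem_univ, true_and, mem_singleton] at h3
    by_cases hj : j = i
    · rw [h1 _ _ (h3.2 hj), hj]; simp [un]
    · have : x j = y j := not_not.1 fun hc => hj (h3.1 hc)
      simp [un, hj, this]
  · rintro rfl
    ext j
    by_cases hj : j = i
    · simp [un, hj]
    · simp [un, hj]

lemma edges_eq : edges d = E0 d := by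
  ext e
  induction e using Sym2.ind with
  | _ x y =>
    rw [edges, Set.Finite.mem_toFinset, SimpleGraph.mem_edgeSet, cube, SimpleGraph.fromRel_adj,
      hammingDist_comm y x, or_self, mem_E0, ← dist_one]
    exact ⟨fun h => h.2, fun h => ⟨by rintro rfl; simp at h, h⟩⟩

lemma expect_eq (p : ℝ) (F : Finset (Sym2 (Cube d)) → ℝ) :
    expect d p F = Ex (E0 d) (fun _ => p) F := by rw [expect, edges_eq, Ex_const_eq]

lemma prob_eq (p : ℝ) (A : Set (Finset (Sym2 (Cube d)))) :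
    prob d p A = Pr (E0 d) (fun _ => p) (· ∈ A) := expect_eq p _

lemma conn_iff {ω : Finset (Sym2 (Cube d))} {x y : Cube d} : Conn ω x y ↔ y ∈ reach ω {x} := by
  simp only [mem_reach, mem_singleton, exists_eq_left]
  refine ⟨fun h => ?_, fun h => ?_⟩
  · have h' := (SimpleGraph.reachable_iff_reflTransGen _ _).1 h
    clear h
    induction h' with
    | refl => exact Relation.ReflTransGen.refl
    | tail _ h2 ih => exact Relation.ReflTransGen.tail ih ((SimpleGraph.fromEdgeSet_adj _).1 h2).1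
  · induction h with
    | refl => exact SimpleGraph.Reachable.refl _
    | @tail a b _ h2 ih =>
      by_cases hab : a = b
      · exact hab ▸ ih
      · exact ih.trans (SimpleGraph.Adj.reachable ((SimpleGraph.fromEdgeSet_adj _).2 ⟨h2, hab⟩))

lemma size_eq (ω : Finset (Sym2 (Cube d))) (x : Cube d) :
    (clusterSize ω x : ℝ) = sz (reach ω {x}) := by
  rw [clusterSize, sz, ← Set.ncard_coe_finset]
  exact congrArg _ (congrArg _ (Set.ext fun y => conn_iff))

lemma chi_eq (p : ℝ) : chi d p = chi0 d p := by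
  rw [chi, expect_eq]; exact Ex_congr fun ω _ => size_eq ω 0

lemma size_le (ω : Finset (Sym2 (Cube d))) (x : Cube d) :
    clusterSize ω x ≤ (Set.univ : Set (Cube d)).ncard := Set.ncard_le_ncard (Set.subset_univ _)

lemma big_iff {ω : Finset (Sym2 (Cube d))} {k : ℝ} : Big k ω ↔ k + 1 ≤ C1 ω := by
  have hb : BddAbove {m | ∃ x, m = clusterSize ω x} := ⟨_, by rintro _ ⟨x, rfl⟩; exact size_le ω x⟩
  refine ⟨fun ⟨x, hx⟩ => hx.trans ?_, fun h => ?_⟩
  · rw [← size_eq]; exact_mod_cast le_csSup hb ⟨x, rfl⟩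
  · obtain ⟨x, hx⟩ := Nat.sSup_mem (Set.nonempty_of_mem (by exact ⟨0, rfl⟩)) hb
    exact ⟨x, by rw [← size_eq, ← hx]; exact h⟩

lemma two_iff {ω : Finset (Sym2 (Cube d))} {k : ℝ} (k0 : 0 ≤ k) : Two k ω ↔ k + 1 ≤ C2 ω := by
  have hb : BddAbove {m | ∃ x y, ¬ Conn ω x y ∧ m = min (clusterSize ω x) (clusterSize ω y)} :=
    ⟨_, by rintro _ ⟨x, y, -, rfl⟩; exact (min_le_left _ _).trans (size_le ω x)⟩
  refine ⟨fun ⟨x, y, hy, h1, h2⟩ => (le_min h1 h2).trans ?_, fun h => ?_⟩
  · rw [← size_eq, ← size_eq]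
    exact_mod_cast le_csSup hb ⟨x, y, fun hc => hy (conn_iff.1 hc), rfl⟩
  · rcases Set.eq_empty_or_nonempty
      {m | ∃ x y, ¬ Conn ω x y ∧ m = min (clusterSize ω x) (clusterSize ω y)} with h0 | h0
    · rw [C2, h0, csSup_empty] at h
      simp at h
      linarith
    obtain ⟨x, y, hy, hm⟩ := Nat.sSup_mem h0 hb
    rw [C2, hm, Nat.cast_min, size_eq, size_eq, le_min_iff] at h
    exact ⟨x, y, fun hc => hy (conn_iff.2 hc), h⟩

lemma dev {t τ K c : ℝ} (τ0 : 0 < τ) (ht : 10 * τ ≤ t) (hK : 1 ≤ τ * K)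
    (h : t < |c / (2 * K) - 1|) : (2 + 10 * τ) * K + 1 ≤ c ∨ ¬ (2 - 10 * τ) * K + 1 ≤ c := by
  have K0 : 0 < K := not_le.1 fun h => by linarith [mul_nonneg τ0.le (neg_nonneg.2 h)]
  have h1 := mul_le_mul_of_nonneg_right ht K0.le
  rcases lt_abs.1 h with h | h
  · rw [lt_sub_iff_add_lt, lt_div_iff₀ (by positivity)] at h
    left; linarith
  · rw [neg_sub, lt_sub_comm, div_lt_iff₀ (by positivity)] at h
    right; intro hc; linarith

/-- The critical value exists in every large dimension. -/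
lemma exists_critical {lam : ℝ} (hlam : 0 < lam) : ∀ᶠ d : ℕ in atTop,
    ∃ p ∈ Set.Icc (0 : ℝ) 1, chi d p = lam * (2 : ℝ) ^ ((d : ℝ) / 3) := by
  have h : Tendsto (fun d : ℕ => (2 : ℝ) ^ ((d : ℝ) / 3)) atTop atTop :=
    (tendsto_rpow_atTop_of_base_gt_one 2 one_lt_two).comp
      (tendsto_natCast_atTop_atTop.atTop_div_const (by norm_num))
  filter_upwards [(h.const_mul_atTop hlam).eventually_ge_atTop 1, h.eventually_ge_atTop lam,
    h.eventually_ge_atTop 1] with d h1 h2 h3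
  simp only [chi_eq]
  refine intermediate_value_Icc zero_le_one (Ex_continuous _ _).continuousOn
    ⟨chi0_zero.trans h1, le_trans ?_ chi0_one.ge⟩
  rw [← cube_root]
  nlinarith [mul_le_mul_of_nonneg_left h3 (sq_nonneg ((2 : ℝ) ^ ((d : ℝ) / 3)))]

end Bridge

open Pool.Agent.P.MP_068ab5_pr in
/-- Discrete duality on the hypercube, with `a d = 2 ε⁻² log (ε³ 2^d)` for all large `d`. -/
theorem result (lam : ℝ) (hlam : 0 < lam) (pc : ℕ → ℝ)
    (hpc : ∀ᶠ d : ℕ in atTop,
      pc d ∈ Set.Icc (0 : ℝ) 1 ∧ chi d (pc d) = lam * (2 : ℝ) ^ ((d : ℝ) / 3))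
    (ε : ℕ → ℝ) (h0 : Tendsto ε atTop (nhds 0))
    (h1 : Tendsto (fun d : ℕ => ε d * (2 : ℝ) ^ ((d : ℝ) / 3)) atTop atTop) :
    ∃ a : ℕ → ℝ, (∀ d, 0 < a d) ∧
      (∀ᶠ d : ℕ in atTop, a d = 2 * Real.log (ε d ^ 3 * 2 ^ d) / ε d ^ 2) ∧
      (∀ t : ℝ, 0 < t → Tendsto (fun d : ℕ =>
        prob d (pc d * (1 + ε d)) {ω | t < |(C2 ω : ℝ) / a d - 1|}) atTop (nhds 0)) ∧
      (∀ t : ℝ, 0 < t → Tendsto (fun d : ℕ =>
        prob d (pc d * (1 - ε d)) {ω | t < |(C1 ω : ℝ) / a d - 1|}) atTop (nhds 0)) := by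
  simp only [chi_eq] at hpc
  have hF := fun {τ : ℝ} (τ0 : 0 < τ) (τ1 : τ ≤ 1 / 100) => final hlam τ0 τ1 hpc h0 h1
  obtain ⟨K, hK⟩ : ∃ K : ℕ → ℝ, K = fun d => Real.log (ε d ^ 3 * 2 ^ d) / ε d ^ 2 := ⟨_, rfl⟩
  have hK' : ∀ d, Real.log (ε d ^ 3 * 2 ^ d) / ε d ^ 2 = K d := fun d => by rw [hK]
  simp only [hK', mul_div_assoc] at hF ⊢
  have ha : ∀ᶠ d : ℕ in atTop, 2 * max (K d) 1 = 2 * K d := by
    filter_upwards [hF (τ := 1 / 100) (by norm_num) le_rfl] with d hd
    rw [max_eq_left (by linarith [hd.1])]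
  have key : ∀ t η : ℝ, 0 < t → 0 < η → ∃ τ, 0 < τ ∧ τ ≤ 1 / 100 ∧ 10 * τ ≤ t ∧ 100 * τ < η :=
    fun t η t0 η0 => ⟨min (1 / 100) (min (t / 10) (η / 200)), by positivity, min_le_left _ _,
      by linarith [min_le_right (1 / 100) (min (t / 10) (η / 200)), min_le_left (t / 10) (η / 200)],
      by linarith [min_le_right (1 / 100) (min (t / 10) (η / 200)), min_le_right (t / 10) (η / 200)]⟩
  refine ⟨fun d => 2 * max (K d) 1, fun d => by positivity, ha, fun t t0 => ?_, fun t t0 => ?_⟩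
  all_goals
    refine tendsto_order.2 ⟨fun η η0 => ?_, fun η η0 => ?_⟩
  · filter_upwards [hF (τ := 1 / 100) (by norm_num) le_rfl] with d hd
    exact η0.trans_le (prob_eq _ _ ▸ Pr_nonneg hd.2.1)
  · obtain ⟨τ, τ0, τ1, τ2, τ3⟩ := key t η t0 η0
    filter_upwards [hF τ0 τ1, ha] with d hd h2
    rw [prob_eq, h2]
    have K0 : 0 ≤ K d := by nlinarith only [hd.1, τ0]
    refine lt_of_le_of_lt ((Pr_mono hd.2.1 fun ω _ h => ?_).trans hd.2.2.2.1) τ3
    rw [two_iff (by positivity), two_iff (mul_nonneg (by linarith) K0)]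
    exact dev τ0 τ2 hd.1 h
  · filter_upwards [hF (τ := 1 / 100) (by norm_num) le_rfl] with d hd
    exact η0.trans_le (prob_eq _ _ ▸ Pr_nonneg hd.2.2.1)
  · obtain ⟨τ, τ0, τ1, τ2, τ3⟩ := key t η t0 η0
    filter_upwards [hF τ0 τ1, ha] with d hd h2
    rw [prob_eq, h2]
    refine lt_of_le_of_lt ((Pr_mono hd.2.2.1 fun ω _ h => ?_).trans hd.2.2.2.2) τ3
    rw [big_iff, big_iff]
    exact dev τ0 τ2 hd.1 h

end Pool.Agent.Results.MP_068ab5_pr.Duality
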